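import Mathlib
import Pool.Agent.helper81.DI.SpecA

/-!
# Part A12 of project di (MP_baa4d7_al)

Decomposition of the chains of `Γ`.
-/

set_option autoImplicit false

namespace Pool.Agent.DI

open Pool.Agent.helper58.DC

theorem A12_nrm_le {Γ : Type} [Group Γ] (C : Finset (Subgroup Γ)) (Q : Subgroup Γ) (hQ : Q ∈ C) :
    nrm C ≤ nz Q := by
  unfold nrm
  exact iInf₂_le Q hQ

/-- Changing `M` does not change `cSum` if the normaliser of the smallest term is contained in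
both groups. -/
theorem A12_M {Γ : Type} [Group Γ] (p : ℕ) (L Q M M' : Subgroup Γ) (g : Subgroup Γ → ℤ)
    (h : nz Q ≤ M) (h' : nz Q ≤ M') : cSum p L Q M g = cSum p L Q M' g := by
  unfold cSum
  refine finsum_congr fun C => finsum_congr fun hC => ?_
  have h1 : nrm C ≤ nz Q := A12_nrm_le C Q hC.mem
  rw [inf_eq_right.2 (h1.trans h), inf_eq_right.2 (h1.trans h')]

theorem A12_step (hA3 : A3_stmt) (hA9 : A9_stmt) (hA10 : A10_stmt) (hA11 : A11_stmt)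
    (Γ : Type) [Group Γ] [Finite Γ] (p : ℕ) [Fact p.Prime] (G : Subgroup Γ)
    (g : Subgroup Γ → ℤ) (hG : G.Normal) (hab : ∀ x y : Γ, x * y * x⁻¹ * y⁻¹ ∈ G)
    (Q : Subgroup Γ) (hQ : IsPGroup p Q) (hQG : Q ⊓ G = ⊥) :
    cSum p ⊤ Q ⊤ g = cSum p (G ⊓ cz Q) ⊥ (cz Q) g -
      ∑ᶠ Q' ∈ {Q' : Subgroup Γ | Q < Q' ∧ Q' ≤ cz Q ∧ IsPGroup p Q' ∧ Q' ⊓ G = ⊥},
        cSum p ⊤ Q' ⊤ g := by
  have h9 := (hA9 Γ G Q hG hab hQG).1
  have e1 : cSum p ⊤ Q ⊤ g = cSum p (cz Q) Q ⊤ g := by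
    rw [hA3 Γ p ⊤ Q ⊤ g, top_inf_eq, h9]
  have e2 := hA10 Γ p G (cz Q) Q ⊤ g hG hQ hQG
  have e3 := hA11 Γ p G Q ⊤ g hG hab hQ hQG
  rw [top_inf_eq] at e3
  rw [e1, e2, e3]
  congr 1
  refine finsum_congr fun Q' => finsum_congr fun hQ' => ?_
  obtain ⟨hlt, -, -, hQ'G⟩ := hQ'
  have h9' := (hA9 Γ G Q' hG hab hQ'G).1
  have hcz : cz Q' ≤ cz Q := Subgroup.centralizer_le (by exact_mod_cast hlt.le)
  have hle : nz Q' ≤ cz Q := by rw [h9']; exact hcz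
  have e4 : (⊤ : Subgroup Γ) ⊓ nz Q = nz Q := top_inf_eq _
  have e5 : (⊤ : Subgroup Γ) ⊓ nz Q' = nz Q' := top_inf_eq _
  rw [hA3 Γ p (cz Q) Q' (⊤ ⊓ nz Q) g, inf_eq_right.2 hle, hA3 Γ p ⊤ Q' ⊤ g, e4, e5]
  apply A12_M
  · rw [h9]; exact hle
  · exact le_top

theorem A12 (hA3 : A3_stmt) (hA9 : A9_stmt) (hA10 : A10_stmt) (hA11 : A11_stmt) : A12_stmt := by
  intro Γ _ _ p _ G g hG hab h0
  have key : ∀ Q : Subgroup Γ, IsPGroup p Q → Q ≠ ⊥ → Q ⊓ G = ⊥ → cSum p ⊤ Q ⊤ g = 0 := by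
    intro Q
    induction Q using WellFoundedGT.induction with
    | ind Q ih =>
      intro hQ hne hQG
      rw [A12_step hA3 hA9 hA10 hA11 Γ p G g hG hab Q hQ hQG, h0 Q hQ hne hQG, zero_sub,
        neg_eq_zero]
      apply finsum_mem_eq_zero_of_forall_eq_zero
      rintro Q' ⟨hlt, -, hQ', hQ'G⟩
      exact ih Q' hlt hQ' (fun h => by rw [h] at hlt; exact not_lt_bot hlt) hQ'G
  rw [A12_step hA3 hA9 hA10 hA11 Γ p G g hG hab ⊥ IsPGroup.of_bot (bot_inf_eq _)]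
  have hcz : cz (⊥ : Subgroup Γ) = ⊤ := by
    rw [eq_top_iff]
    intro x _
    rw [Subgroup.mem_centralizer_iff]
    intro y hy
    have : y = 1 := by simpa using hy
    subst this
    simp
  rw [hcz, inf_top_eq]
  have hz : ∑ᶠ Q' ∈ {Q' : Subgroup Γ | ⊥ < Q' ∧ Q' ≤ ⊤ ∧ IsPGroup p Q' ∧ Q' ⊓ G = ⊥},
      cSum p ⊤ Q' ⊤ g = 0 := by
    apply finsum_mem_eq_zero_of_forall_eq_zero
    rintro Q' ⟨hlt, -, hQ', hQ'G⟩
    exact key Q' hQ' hlt.ne' hQ'G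
  rw [hz, sub_zero]

end Pool.Agent.DI
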