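import Mathlib
import Pool.Agent.helper81.DI.SpecA

/-!
# Part A2 of project di (MP_baa4d7_al)

Facts on `O_p`.
-/

set_option autoImplicit false

namespace Pool.Agent.DI

open Pool.Agent.helper58.DC

theorem A2 : A2_stmt := by
  intro Γ _ _ p _ H
  have uniq : ∀ P Q : Subgroup Γ, IsOp p H P → IsOp p H Q → Q = P := fun P Q hP hQ =>
    IsGreatest.unique hQ hP
  refine ⟨?_, fun P hP => ⟨hP.1.1, hP.1.2.1, hP.1.2.2, ?_, fun Q hQ => uniq P Q hP hQ⟩⟩
  · set S : Set (Subgroup Γ) := {Q : Subgroup Γ | Q ≤ H ∧ IsPGroup p Q ∧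
      H ≤ Subgroup.normalizer (Q : Set Γ)} with hS
    have hne : S.Nonempty := by
      refine ⟨⊥, bot_le, IsPGroup.of_bot, ?_⟩
      have : Subgroup.normalizer ((⊥ : Subgroup Γ) : Set Γ) = ⊤ := Subgroup.normalizer_eq_top _
      rw [this]
      exact le_top
    obtain ⟨P, hP⟩ := (Set.toFinite S).exists_maximal hne
    refine ⟨P, hP.1, fun Q hQ => ?_⟩
    have hsup : P ⊔ Q ∈ S := by
      refine ⟨sup_le hP.1.1 hQ.1, ?_, ?_⟩
      · exact IsPGroup.to_sup_of_normal_right' hP.1.2.1 hQ.2.1 (hP.1.1.trans hQ.2.2)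
      · exact (le_inf hP.1.2.2 hQ.2.2).trans
          (Subgroup.normalizer_inf_normalizer_le_normalizer_sup P Q)
    exact le_sup_right.trans (hP.2 hsup le_sup_left)
  · intro x hx
    have hx' := Subgroup.mem_normalizer_iff_map_conj_eq.1 hx
    apply Subgroup.mem_normalizer_iff_map_conj_eq.2
    have hinj : Function.Injective ((MulAut.conj x : Γ ≃* Γ) : Γ →* Γ) :=
      (MulAut.conj x).injective
    have hle : P.map ((MulAut.conj x : Γ ≃* Γ) : Γ →* Γ) ≤ P := by
      apply hP.2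
      refine ⟨?_, ?_, ?_⟩
      · have h1 := Subgroup.map_mono (f := ((MulAut.conj x : Γ ≃* Γ) : Γ →* Γ)) hP.1.1
        exact h1.trans hx'.le
      · exact hP.1.2.1.map _
      · have h1 := Subgroup.map_mono (f := ((MulAut.conj x : Γ ≃* Γ) : Γ →* Γ)) hP.1.2.2
        have h2 := Subgroup.map_equiv_normalizer_eq P (MulAut.conj x : Γ ≃* Γ)
        exact (hx'.ge.trans h1).trans h2.le
    apply Subgroup.eq_of_le_of_card_ge hle
    exact (Subgroup.card_map_of_injective hinj).ge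

end Pool.Agent.DI
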